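import Pool.Agent.P8H30.MX.Stm

/-!
# Project MX, package TV: transvections for a degenerate alternating form (adapted from `Y119/HY/Grp.lean`)
-/

set_option autoImplicit false

open Matrix

namespace Pool.Agent.P8H21.MX

open Pool.Agent.Y119.HY (om tv E om_add om_smul om_skew tv_smul pl pl_ne pl_eval conj_mem add_mem' closed_mem)

variable {n : ℕ} {J N : Matrix (Fin n) (Fin n) ℂ}

section main

variable (hJ : J.transpose = -J) (hN : N ^ n = 0) (hNJ : N.transpose * J + J * N = 0) {v : Fin n → ℂ}
  (hv1 : (N ^ (n - 1)) *ᵥ v ≠ 0) (hv : ∃ x, om J v x ≠ 0) (S : Submonoid (Matrix (Fin n) (Fin n) ℂ))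
  (hE : ∀ c : ℂ, ∀ g ∈ S, E N c * g * E N (-c) ∈ S) (hvS : ∀ s, tv J v s ∈ S)
  (hcl : ∀ M : Matrix (Fin n) (Fin n) (Polynomial ℂ), (∀ c : ℂ, c ≠ 0 → M.map (Polynomial.eval c) ∈ S) →
    M.map (Polynomial.eval 0) ∈ S)

include hJ hN hNJ hv1 hv hE hvS hcl in
lemma exists_sub (r : ℕ) (hr1 : 1 ≤ r) (hr : r ≤ n) : ∃ U : Submodule ℂ (Fin n → ℂ), v ∈ U ∧ r ≤ Module.finrank ℂ U ∧
    ∀ x ∈ U, ∀ s, tv J x s ∈ S := by
  have hv0 : v ≠ 0 := by
    intro h
    apply hv1
    rw [h, mulVec_zero]
  induction r with
  | zero => omega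
  | succ r ih =>
    rcases Nat.eq_zero_or_pos r with h0 | hpos
    · subst h0
      refine ⟨Submodule.span ℂ {v}, Submodule.mem_span_singleton_self v, ?_, ?_⟩
      · rw [finrank_span_singleton hv0]
      · intro x hx s
        obtain ⟨c, rfl⟩ := Submodule.mem_span_singleton.1 hx
        rw [tv_smul]
        exact hvS _
    · obtain ⟨U, hvU, hUr, hU⟩ := ih hpos (by omega)
      by_cases hbig : r + 1 ≤ Module.finrank ℂ U
      · exact ⟨U, hvU, hbig, hU⟩
      have hUlt : U < ⊤ := by
        rw [lt_top_iff_ne_top]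
        rintro rfl
        rw [finrank_top, Module.finrank_fin_fun] at hbig
        omega
      obtain ⟨l, hl0, hlU⟩ := Submodule.exists_le_ker_of_lt_top U hUlt
      -- the functional `om · v`
      set l2 : (Fin n → ℂ) →ₗ[ℂ] ℂ :=
        { toFun := fun x => om J v x, map_add' := om_add v, map_smul' := fun c x => om_smul c v x } with hl2
      have hl20 : l2 ≠ 0 := by
        intro h
        obtain ⟨x, hx⟩ := hv
        apply hx
        have : l2 x = 0 := by rw [h]; rfl
        exact this
      have hp : pl N v l * pl N v l2 ≠ 0 := mul_ne_zero (pl_ne hN hv1 hl0) (pl_ne hN hv1 hl20)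
      obtain ⟨c, hc⟩ : ∃ c, (pl N v l * pl N v l2).eval c ≠ 0 := by
        by_contra hcon
        push Not at hcon
        exact hp (Polynomial.funext fun c => by rw [hcon c, Polynomial.eval_zero])
      rw [Polynomial.eval_mul, pl_eval, pl_eval] at hc
      set w := E N c *ᵥ v with hw
      have hlw : l w ≠ 0 := left_ne_zero_of_mul hc
      have hvw : om J v w ≠ 0 := right_ne_zero_of_mul hc
      have hwv : om J w v ≠ 0 := by rw [om_skew hJ]; exact neg_ne_zero.2 hvw
      have hwS : ∀ s, tv J w s ∈ S := fun s => conj_mem hN hNJ S hE hvS c s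
      have hwU : w ∉ U := fun h => hlw (LinearMap.mem_ker.1 (hlU h))
      refine ⟨U ⊔ Submodule.span ℂ {w}, Submodule.mem_sup_left hvU, ?_, ?_⟩
      · have h1 : U < U ⊔ Submodule.span ℂ {w} :=
          lt_of_le_of_ne le_sup_left fun h => hwU (by
            rw [h]; exact Submodule.mem_sup_right (Submodule.mem_span_singleton_self w))
        have := Submodule.finrank_lt_finrank_of_lt h1
        omega
      · intro x hx
        obtain ⟨y, hy, z, hz, rfl⟩ := Submodule.mem_sup.1 hx
        obtain ⟨a, rfl⟩ := Submodule.mem_span_singleton.1 hz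
        by_cases h1 : om J w y = 0
        · refine closed_mem S hcl (w := v) fun η hη s => ?_
          have h2 : om J w (y + η • v) ≠ 0 := by
            rw [om_add, om_smul, h1, zero_add]
            exact mul_ne_zero hη hwv
          have h3 := add_mem' hJ S hwS (hU _ (U.add_mem hy (U.smul_mem η hvU))) h2 a s
          have e : y + a • w + η • v = y + η • v + a • w := by abel
          rw [e]
          exact h3
        · exact add_mem' hJ S hwS (hU y hy) h1 a

include hJ hN hNJ hv1 hv hE hvS hcl in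
lemma all_tv (x : Fin n → ℂ) (s : ℂ) : tv J x s ∈ S := by
  rcases Nat.eq_zero_or_pos n with h0 | hpos
  · subst h0
    have : tv J x s = 1 := Subsingleton.elim _ _
    rw [this]
    exact one_mem _
  · obtain ⟨U, -, hU1, hU2⟩ := exists_sub hJ hN hNJ hv1 hv S hE hvS hcl n hpos le_rfl
    have : U = ⊤ := by
      apply Submodule.eq_top_of_finrank_eq
      rw [Module.finrank_fin_fun]
      have := Submodule.finrank_le U
      rw [Module.finrank_fin_fun] at this
      omega
    exact hU2 x (by rw [this]; trivial) s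

end main

theorem t_TV : Pool.Agent.P8H30.MX.S_TV := by
  intro n J N v S hJ hN hNJ hv1 hv hE hvS hcl x c
  exact all_tv hJ hN hNJ hv1 hv S hE hvS hcl x c

end Pool.Agent.P8H21.MX
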