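import Pool.Agent.P8H30.MX.Stm
import Pool.Agent.P8H21.MX.TV

/-!
# Project MX, packages DUAL, CONN, INV: dual systems, connection, invariance under transvections
(adapted from `Y119/HY/Gal.lean` and `Y119/HY/Main.lean`)
-/

set_option autoImplicit false

open Filter Topology Matrix Polynomial

namespace Pool.Agent.P8H21.MX

open Pool.Agent.Y119.HY

variable {n : ℕ}

/-- the pairing of two solutions of dual systems is constant -/
lemma pair2 {G : Matrix (Fin n) (Fin n) ℂ} {Y Z : ℂ → Matrix (Fin n) (Fin n) ℂ} {z : ℂ}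
    (hY : HD Y (-G.transpose * Y z) z) (hZ : HD Z (G * Z z) z) :
    HD (fun w => (Y w).transpose * Z w) 0 z := by
  refine (hY.transpose.mul hZ).congr ?_
  rw [transpose_mul, transpose_neg, transpose_transpose]
  rw [mul_neg, neg_mul, Matrix.mul_assoc]
  exact neg_add_cancel _

lemma Gm_dual (N0 N1 : Matrix (Fin n) (Fin n) ℂ) (z : ℂ) :
    Gm (-N0.transpose) (-N1.transpose) z = -(Gm N0 N1 z).transpose := by
  unfold Gm
  rw [transpose_add, transpose_smul, transpose_smul, smul_neg, smul_neg, neg_add]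

lemma nil_dual {N : Matrix (Fin n) (Fin n) ℂ} (h : N ^ n = 0) : (-N.transpose) ^ n = 0 := by
  rw [neg_pow, ← transpose_pow, h, transpose_zero, mul_zero]

theorem t_DUAL : Pool.Agent.P8H30.MX.S_DUAL := by
  intro n N0 N1 H H' h0 hH hH' z hz
  have h0' : (-N0.transpose) ^ n = 0 := nil_dual h0
  generalize hM0 : -N0.transpose = M0 at *
  have hhalf : ((1 / 2 : ℝ) : ℂ) ∈ Lens := real_mem_Lens (by norm_num) (by norm_num)
  set S := (Yf M0 H' ((1 / 2 : ℝ) : ℂ)).transpose * Yf N0 H ((1 / 2 : ℝ) : ℂ) with hS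
  have hconst : ∀ w ∈ Lens, (Yf M0 H' w).transpose * Yf N0 H w = S := by
    intro w hw
    refine const_Lens (F := fun w => (Yf M0 H' w).transpose * Yf N0 H w) (fun x hx => ?_) hw hhalf
    have h1 := Yf_ode hH h0 (mem_Lens.1 hx).1 (slit_Lens hx)
    have h2 := Yf_ode hH' h0' (mem_Lens.1 hx).1 (slit_Lens hx)
    rw [← hM0, Gm_dual, hM0] at h2
    exact pair2 h2 h1
  rw [hconst z hz]
  have hHan : ∀ i j, AnalyticOnNhd ℂ (fun z => ((Hf H' z).transpose * Hf H z) i j) (Metric.ball 0 1) := by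
    intro i j
    simp only [Matrix.mul_apply, Matrix.transpose_apply]
    exact Finset.analyticOnNhd_fun_sum _ fun l _ => AnalyticOnNhd.mul (Hf_an hH' h0' l i) (Hf_an hH h0 l j)
  have hlog : ∀ i j : Fin n, ∀ w ∈ Metric.ball (0 : ℂ) 1, C (((Hf H' w).transpose * Hf H w) i j) +
      -(((Ep (-M0)).transpose * S.map C * Ep (-N0)) i j) = 0 := by
    intro i j
    refine PA.log_zero (f := fun w => C (((Hf H' w).transpose * Hf H w) i j) +
      -(((Ep (-M0)).transpose * S.map C * Ep (-N0)) i j)) ((PA.ofFun (hHan i j)).add (PA.const _)) fun x hx hx1 => ?_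
    have h1 := hconst x (real_mem_Lens hx hx1)
    have h2 : ((Ep (-M0)).transpose * S.map C * Ep (-N0)).map (Polynomial.eval ((Real.log x : ℝ) : ℂ)) =
        (Hf H' x).transpose * Hf H x := by
      rw [map_mul_eval, map_mul_eval, Matrix.transpose_map, map_C_eval, Ep_eval, Ep_eval, E_neg M0, E_neg N0, ← h1]
      unfold Yf
      rw [← Complex.ofReal_log hx.le, transpose_mul]
      set L : ℂ := ((Real.log x : ℝ) : ℂ)
      have h3 : E N0 L * E N0 (-L) = 1 := E_mul_neg h0 L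
      have h3' : E M0 L * E M0 (-L) = 1 := E_mul_neg h0' L
      have h4 : (E M0 (-L)).transpose * (E M0 L).transpose = 1 := by
        rw [← transpose_mul, h3', transpose_one]
      calc (E M0 (-L)).transpose * ((E M0 L).transpose * (Hf H' x).transpose * (Hf H x * E N0 L)) * E N0 (-L)
          = ((E M0 (-L)).transpose * (E M0 L).transpose) * (Hf H' x).transpose * Hf H x * (E N0 L * E N0 (-L)) := by
            simp only [Matrix.mul_assoc]
        _ = _ := by rw [h3, h4, one_mul, mul_one]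
    rw [eval_add, eval_neg, eval_C, ← h2]
    simp only [Matrix.map_apply]
    ring
  ext i j
  have h5 := congrArg (Polynomial.eval 0) (hlog i j 0 (Metric.mem_ball_self one_pos))
  rw [eval_add, eval_neg, eval_C, Hf_zero hH, Hf_zero hH', transpose_one, one_mul, eval_zero] at h5
  have h6 : ((Ep (-M0)).transpose * S.map C * Ep (-N0)).map (Polynomial.eval 0) = S := by
    have e1 : E (-N0) (0 : ℂ) = 1 := E_zero (by rw [neg_pow, h0, mul_zero])
    have e2 : E (-M0) (0 : ℂ) = 1 := E_zero (by rw [neg_pow, h0', mul_zero])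
    rw [map_mul_eval, map_mul_eval, Matrix.transpose_map, map_C_eval, Ep_eval, Ep_eval, e1, e2, transpose_one,
      one_mul, mul_one]
  have h7 := congrFun (congrFun h6 i) j
  rw [Matrix.map_apply] at h7
  rw [h7] at h5
  linear_combination -h5

theorem t_CONN (hD : Pool.Agent.P8H30.MX.S_DUAL) : Pool.Agent.P8H30.MX.S_CONN := by
  intro n A B H K hA hB hH hK
  have hhalf : ((1 / 2 : ℝ) : ℂ) ∈ Lens := real_mem_Lens (by norm_num) (by norm_num)
  obtain ⟨H', hH'⟩ := exists_sol (nil_dual hA) (-B.transpose)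
  obtain ⟨K', hK'⟩ := exists_sol (nil_dual hB) (-(-A).transpose)
  set Z : ℂ → Matrix (Fin n) (Fin n) ℂ := fun z => Yf (-B) K (1 - z) with hZ
  set Z' : ℂ → Matrix (Fin n) (Fin n) ℂ := fun z => Yf (-(-B).transpose) K' (1 - z) with hZ'
  have hZZ : ∀ z ∈ Lens, (Z' z).transpose * Z z = 1 := fun z hz =>
    hD n (-B) (-A) K K' hB hK hK' (1 - z) (symm_Lens hz)
  have hYY : ∀ z ∈ Lens, (Yf (-A.transpose) H' z).transpose * Yf A H z = 1 := fun z hz =>
    hD n A B H H' hA hH hH' z hz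
  have hYd : ∀ z ∈ Lens, HD (Yf A H) (Gm A B z * Yf A H z) z := fun z hz =>
    Yf_ode hH hA (mem_Lens.1 hz).1 (slit_Lens hz)
  have hZd : ∀ z ∈ Lens, HD Z' (-(Gm A B z).transpose * Z' z) z := by
    intro z hz
    have hz' := symm_Lens hz
    have h1 := Yf_ode hK' (nil_dual hB) (mem_Lens.1 hz').1 (slit_Lens hz')
    have h2 : HasDerivAt (fun w : ℂ => 1 - w) (-1) z := by
      simpa using (hasDerivAt_id z).const_sub 1
    refine (h1.comp h2).congr ?_
    rw [hZ', ← smul_mul_assoc]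
    congr 1
    rw [Gm_dual, neg_smul, one_smul, neg_neg]
    unfold Gm
    rw [sub_sub_cancel, smul_neg, smul_neg]
    rw [← neg_add, transpose_neg, add_comm]
  set M := (Z' ((1 / 2 : ℝ) : ℂ)).transpose * Yf A H ((1 / 2 : ℝ) : ℂ) with hM
  have hMc : ∀ z ∈ Lens, (Z' z).transpose * Yf A H z = M := fun z hz =>
    const_Lens (F := fun z => (Z' z).transpose * Yf A H z) (fun x hx => pair2 (hZd x hx) (hYd x hx)) hz hhalf
  have hZM : ∀ z ∈ Lens, Yf A H z = Z z * M := by
    intro z hz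
    have h2 : Z z * (Z' z).transpose = 1 := mul_eq_one_comm.1 (hZZ z hz)
    rw [← hMc z hz, ← Matrix.mul_assoc, h2, one_mul]
  set Mi := (Yf (-A.transpose) H' ((1 / 2 : ℝ) : ℂ)).transpose * Z ((1 / 2 : ℝ) : ℂ) with hMi
  have hMMi : M * Mi = 1 := by
    have h1 : Yf A H ((1 / 2 : ℝ) : ℂ) * (Yf (-A.transpose) H' ((1 / 2 : ℝ) : ℂ)).transpose = 1 :=
      mul_eq_one_comm.1 (hYY _ hhalf)
    calc M * Mi = (Z' ((1 / 2 : ℝ) : ℂ)).transpose * (Yf A H ((1 / 2 : ℝ) : ℂ) *
          (Yf (-A.transpose) H' ((1 / 2 : ℝ) : ℂ)).transpose) * Z ((1 / 2 : ℝ) : ℂ) := by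
          rw [hM, hMi]; simp only [Matrix.mul_assoc]
      _ = 1 := by rw [h1, mul_one]; exact hZZ _ hhalf
  refine ⟨M, Mi, hMMi, mul_eq_one_comm.1 hMMi, hZM, fun J hAJ hBJ => ?_⟩
  have hAJ' : (-A).transpose * J + J * (-A) = 0 := by
    rw [transpose_neg, neg_mul, mul_neg, ← neg_add, hAJ, neg_zero]
  have hBJ' : (-B).transpose * J + J * (-B) = 0 := by
    rw [transpose_neg, neg_mul, mul_neg, ← neg_add, hBJ, neg_zero]
  have h1 : (Z ((1 / 2 : ℝ) : ℂ)).transpose * J * Z ((1 / 2 : ℝ) : ℂ) = J :=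
    self_pair hB hBJ' hAJ' hK (symm_Lens hhalf)
  have h2 : (Yf A H ((1 / 2 : ℝ) : ℂ)).transpose * J * Yf A H ((1 / 2 : ℝ) : ℂ) = J :=
    self_pair hA hAJ hBJ hH hhalf
  rw [hZM _ hhalf, transpose_mul] at h2
  calc M.transpose * J * M = M.transpose * ((Z ((1 / 2 : ℝ) : ℂ)).transpose * J * Z ((1 / 2 : ℝ) : ℂ)) * M := by
        rw [h1]
    _ = M.transpose * (Z ((1 / 2 : ℝ) : ℂ)).transpose * J * (Z ((1 / 2 : ℝ) : ℂ) * M) := by
        simp only [Matrix.mul_assoc]
    _ = J := h2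

theorem t_INV (hC : Pool.Agent.P8H30.MX.S_CONN) (hT : Pool.Agent.P8H30.MX.S_TV) : Pool.Agent.P8H30.MX.S_INV := by
  intro n J A u e H i0 hn hJ hA hAJ hH hcyc hsing
  set B : Matrix (Fin n) (Fin n) ℂ := -vecMulVec u (u ᵥ* J) with hBdef
  have hnB : -B = vecMulVec u (u ᵥ* J) := by rw [hBdef, neg_neg]
  have hB : (-B) ^ n = 0 := by rw [hnB]; exact tv_pow hJ u hn
  have hBJ : B.transpose * J + J * B = 0 := by
    rw [hBdef, transpose_neg, neg_mul, mul_neg, ← neg_add, tv_skew hJ, neg_zero]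
  obtain ⟨K, hK⟩ := exists_sol hB (-A)
  obtain ⟨M, Mi, hMMi, hMiM, hconn, hMJ'⟩ := hC n A B H K hA hB hH hK
  have hMJ := hMJ' J hAJ hBJ
  have hMiJ : Mi.transpose * J * Mi = J := by
    calc Mi.transpose * J * Mi = Mi.transpose * (M.transpose * J * M) * Mi := by rw [hMJ]
      _ = (M * Mi).transpose * J * (M * Mi) := by rw [transpose_mul]; simp only [Matrix.mul_assoc]
      _ = J := by rw [hMMi, transpose_one, one_mul, mul_one]
  set v : Fin n → ℂ := Mi *ᵥ u with hv
  have hvS : ∀ s, tv J v s ∈ Gal (Yf A H) := by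
    intro s
    have h1 := conj_mem_Gal hB hK (Y := Yf A H) hMMi (fun x hx hx1 => hconn x (real_mem_Lens hx hx1)) s
    rw [hnB, E_tv hn hJ, tv_conj Mi M hMiM hMiJ] at h1
    exact h1
  have hve : om J v e ≠ 0 := by
    intro h0
    -- `ω(u, M e) = 0`
    have h1 : om J u (M *ᵥ e) = 0 := by
      have h2 : om J (Mi *ᵥ u) (Mi *ᵥ (M *ᵥ e)) = om J u (M *ᵥ e) := by
        unfold om
        rw [mulVec_mulVec, ← vecMul_transpose, ← dotProduct_mulVec, mulVec_mulVec, ← Matrix.mul_assoc, hMiJ]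
      rw [← h2, mulVec_mulVec e Mi M, hMiM, one_mulVec]
      exact h0
    have h2 : (-B) *ᵥ (M *ᵥ e) = 0 := by
      rw [hnB, vecMulVec_mulVec, ← om_eq, h1]
      simp
    refine hsing (fun z => (Hf K (1 - z) *ᵥ (M *ᵥ e)) i0) ?_ fun z hz => ?_
    · simp only [Matrix.mulVec, dotProduct]
      refine Finset.analyticOnNhd_fun_sum _ fun j _ => AnalyticOnNhd.mul ?_ analyticOnNhd_const
      intro z hz
      have h3 : AnalyticAt ℂ (fun w => Hf K w i0 j) (1 - z) := Hf_an hK hB i0 j (1 - z) (by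
        rw [Metric.mem_ball, dist_comm, dist_eq_norm] at hz
        rwa [Metric.mem_ball, dist_zero_right])
      have h4 : AnalyticAt ℂ (fun w : ℂ => 1 - w) z := analyticAt_const.sub analyticAt_id
      exact h3.fun_comp h4
    · have h3 := congrArg (fun X : Matrix (Fin n) (Fin n) ℂ => X *ᵥ e) (hconn z hz)
      rw [h3]
      unfold Yf
      rw [← mulVec_mulVec, ← mulVec_mulVec, E_fix h2]
  exact hT n J A v (Gal (Yf A H)) hJ hA hAJ (hcyc v hve) ⟨e, hve⟩ (fun c g hg => conj_E hA hH c g hg) hvS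
    (Gal_closed _)

end Pool.Agent.P8H21.MX
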