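import Pool.Agent.P8H30.MX.Stm

/-!
# Project MX, packages SNG, HYP
-/

set_option autoImplicit false

open Filter Topology Matrix

namespace Pool.Agent.P8H21.MX

open Pool.Agent.Y119.HY
open Pool.Agent.P8H30.MX

theorem t_SNG (hB : S_HFB) (hE : S_EBL) : S_SNG := by
  intro s n Q i0 hQ hi0
  have hn := hQ.two
  have hi0' : i0 = Fin.natAdd s (⟨0, by omega⟩ : Fin n) := Fin.ext (by simpa using hi0)
  constructor
  · intro v hv
    set v' : Fin n → ℂ := fun i => v (Fin.natAdd s i) with hv'
    have hes : ∀ M : Matrix (Fin (s + n)) (Fin (s + n)) ℂ, ∀ i, (M *ᵥ es s n) i = M i i0 := by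
      intro M i
      rw [mv_apply, Finset.sum_eq_single i0]
      · unfold es
        rw [if_pos hi0, mul_one]
      · intro b _ hb
        unfold es
        rw [if_neg, mul_zero]
        intro h
        exact hb (Fin.ext (h.trans hi0.symm))
      · intro h
        exact absurd (Finset.mem_univ _) h
    have h1 : om (bl 0 0 (cm (Jm n Q))) v (es s n) = om (cm (Jm n Q)) v' (ec n) := by
      unfold om
      rw [dotProduct, dotProduct, Fin.sum_univ_add]
      have e1 : ∀ i : Fin s, v (Fin.castAdd n i) * ((bl 0 0 (cm (Jm n Q)) : Matrix (Fin (s + n)) (Fin (s + n)) ℂ) *ᵥ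
          es s n) (Fin.castAdd n i) = 0 := by
        intro i
        rw [hes, hi0', bl_right]
        simp
      rw [Finset.sum_eq_zero fun i _ => e1 i, zero_add]
      refine Finset.sum_congr rfl fun i _ => ?_
      rw [hes, hi0', bl_natAdd]
      congr 1
      rw [mv_apply, Finset.sum_eq_single ⟨0, by omega⟩]
      · unfold ec
        rw [if_pos rfl, mul_one]
      · intro b _ hb
        unfold ec
        rw [if_neg, mul_zero]
        intro h
        exact hb (Fin.ext h)
      · intro h
        exact absurd (Finset.mem_univ _) h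
    rw [h1, om_ec hQ] at hv
    have h2 : v' ⟨n - 1, by omega⟩ ≠ 0 := left_ne_zero_of_mul hv
    rw [Ac_last (by omega)]
    intro h3
    have h4 := congrFun h3 ⟨0, by omega⟩
    simp only [Pi.smul_apply, Pi.zero_apply, smul_eq_mul] at h4
    unfold ec at h4
    rw [if_pos rfl, mul_one] at h4
    apply h2
    rw [hv', ← h4]
    simp only
    congr 1
    exact Fin.ext (by simp only [Fin.natAdd_mk]; omega)
  · intro g hg hext
    refine sing hQ g hg fun z hz => ?_
    rw [← hext z hz]
    obtain ⟨b, hb⟩ := hB s n Q z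
    obtain ⟨P, R, hPR⟩ := hE s n (Complex.log z)
    have h1 : Yf (cm (Am (s + n))) (Hc (s + n) (Polynomial.X ^ s * Q)) z =
        bl ((1 : Matrix (Fin s) (Fin s) ℂ) * P) ((1 : Matrix (Fin s) (Fin s) ℂ) * R +
          b * E (cm (Am n)) (Complex.log z)) (Hf (Hc n Q) z * E (cm (Am n)) (Complex.log z)) := by
      unfold Yf
      rw [hb, hPR, bl_mul]
    have hes : ((Yf (cm (Am (s + n))) (Hc (s + n) (Polynomial.X ^ s * Q)) z) *ᵥ es s n) i0 =
        Yf (cm (Am (s + n))) (Hc (s + n) (Polynomial.X ^ s * Q)) z i0 i0 := by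
      rw [mv_apply, Finset.sum_eq_single i0]
      · unfold es
        rw [if_pos hi0, mul_one]
      · intro b _ hb
        unfold es
        rw [if_neg, mul_zero]
        intro h
        exact hb (Fin.ext (h.trans hi0.symm))
      · intro h
        exact absurd (Finset.mem_univ _) h
    rw [hes, h1, hi0', bl_natAdd]
    have h2 : (Hf (Hc n Q) z *ᵥ ec n) = (Hf (Hc n Q) z * E (cm (Am n)) (Complex.log z)) *ᵥ ec n := by
      rw [← mulVec_mulVec, E_fix (Ac_ec n)]
    rw [h2, mv_apply, Finset.sum_eq_single ⟨0, by omega⟩]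
    · unfold ec
      rw [if_pos rfl, mul_one]
    · intro b _ hb
      unfold ec
      rw [if_neg, mul_zero]
      intro h
      exact hb (Fin.ext h)
    · intro h
      exact absurd (Finset.mem_univ _) h

theorem t_HYP (hS : S_SOL) (hJ : S_BLJ) (hG : S_SNG) (hI : S_INV) (hN : S_GEN) : S_HYP := by
  intro s n Q hQ b g hg
  have hn := hQ.two
  refine hN s n (cm (Jm n Q)) (Gal (Yf (cm (Am (s + n))) (Hc (s + n) (Polynomial.X ^ s * Q)))) (Jc_skew hQ) (Jc_det hQ)
    (fun x c => ?_) b g hg
  obtain ⟨h1, h2, h3⟩ := hJ s n Q hQ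
  have hQG : QG (s + n) (Polynomial.X ^ s * Q) := by
    refine ⟨by omega, (Polynomial.monic_X_pow s).mul hQ.monic, ?_⟩
    rw [(Polynomial.monic_X_pow s).natDegree_mul hQ.monic, Polynomial.natDegree_X_pow, hQ.deg]
  have h4 := hS (s + n) (Polynomial.X ^ s * Q) hQG
  rw [h3] at h4
  obtain ⟨h5, h6⟩ := hG s n Q ⟨s, by omega⟩ hQ rfl
  exact hI (s + n) (bl 0 0 (cm (Jm n Q))) (cm (Am (s + n))) (uc (s + n)) (es s n)
    (Hc (s + n) (Polynomial.X ^ s * Q)) ⟨s, by omega⟩ (by omega) h1 Ac_nil h2 h4 h5 h6 x c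

end Pool.Agent.P8H21.MX
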